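import Mathlib
import Pool.Agent.Helper214.PavDual
import Pool.Agent.Helper214.Hpp

namespace Pool.Agent.Results.MP_16c009_co.SparsePaving

universe u

variable {α : Type u} [DecidableEq α] [Fintype α]

open Classical in
/-- `M` has the half-plane property: the basis generating polynomial does not vanish when all
coordinates have strictly positive real part. -/
def HPP (M : Matroid α) : Prop :=
  ∀ x : α → ℂ, (∀ a, 0 < (x a).re) →
    (∑ A : Finset α, if M.IsBase (A : Set α) then ∏ a ∈ A, x a else 0) ≠ 0

open Classical in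
/-- `M` is independence-correlated: `i_ef i ≤ i_e i_f`. -/
def IndepCorrelated (M : Matroid α) : Prop :=
  ∀ z : α → ℝ, (∀ x, 0 < z x) → ∀ e f : α, e ≠ f →
    (∑ A : Finset α, if M.Indep (A : Set α) ∧ e ∈ A ∧ f ∈ A then ∏ x ∈ A, z x else 0) *
      (∑ A : Finset α, if M.Indep (A : Set α) then ∏ x ∈ A, z x else 0) ≤
    (∑ A : Finset α, if M.Indep (A : Set α) ∧ e ∈ A then ∏ x ∈ A, z x else 0) *
      (∑ A : Finset α, if M.Indep (A : Set α) ∧ f ∈ A then ∏ x ∈ A, z x else 0)

open Classical in
/-- `M` is spanning-correlated: `s_ef s ≤ s_e s_f`. -/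
def SpanningCorrelated (M : Matroid α) : Prop :=
  ∀ z : α → ℝ, (∀ x, 0 < z x) → ∀ e f : α, e ≠ f →
    (∑ A : Finset α, if M.Spanning (A : Set α) ∧ e ∈ A ∧ f ∈ A then ∏ x ∈ A, z x else 0) *
      (∑ A : Finset α, if M.Spanning (A : Set α) then ∏ x ∈ A, z x else 0) ≤
    (∑ A : Finset α, if M.Spanning (A : Set α) ∧ e ∈ A then ∏ x ∈ A, z x else 0) *
      (∑ A : Finset α, if M.Spanning (A : Set α) ∧ f ∈ A then ∏ x ∈ A, z x else 0)

/-- `M` is paving: every set of elements smaller than a base is independent. -/
def Paving (M : Matroid α) : Prop :=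
  ∀ A B : Finset α, (A : Set α) ⊆ M.E → M.IsBase (B : Set α) → A.card < B.card →
    M.Indep (A : Set α)

theorem hpp_rayleigh (M : Matroid α) (hH : HPP M) :
    Helper214.PavMain.NegCorr (fun A : Finset α => M.IsBase (A : Set α)) := by
  classical
  obtain ⟨B, hB⟩ := Helper214.PavMat.exists_base M
  refine Helper214.Hpp.negCorr_of_hpp (r := B.card) (fun A hA =>
    Helper214.PavMat.base_card hA hB) ?_
  intro x hx
  exact hH x hx

/-- (1) A paving matroid with the half-plane property is independence-correlated. (2) A matroid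
with the half-plane property whose dual is paving is spanning-correlated. (3) A sparse paving
matroid (it and its dual are paving) with the half-plane property is correlated. -/
theorem result :
    (∀ (α : Type u) [DecidableEq α] [Fintype α] (M : Matroid α), HPP M → Paving M →
      IndepCorrelated M) ∧
    (∀ (α : Type u) [DecidableEq α] [Fintype α] (M : Matroid α), HPP M → Paving M✶ →
      SpanningCorrelated M) ∧
    (∀ (α : Type u) [DecidableEq α] [Fintype α] (M : Matroid α), HPP M → Paving M → Paving M✶ →
      (IndepCorrelated M ∧ SpanningCorrelated M)) := by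
  have h1 : ∀ (α : Type u) [DecidableEq α] [Fintype α] (M : Matroid α), HPP M → Paving M →
      IndepCorrelated M := fun α _ _ M hH hM =>
    Helper214.PavMain.paving_indep hM (hpp_rayleigh M hH)
  have h2 : ∀ (α : Type u) [DecidableEq α] [Fintype α] (M : Matroid α), HPP M → Paving M✶ →
      SpanningCorrelated M := fun α _ _ M hH hM =>
    Helper214.PavMain.paving_spanning hM (hpp_rayleigh M hH)
  exact ⟨h1, h2, fun α _ _ M hH hM hM' => ⟨h1 α M hH hM, h2 α M hH hM'⟩⟩

end Pool.Agent.Results.MP_16c009_co.SparsePaving
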